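import Pool.Agent.R107.BMFinal

/-!
# Log-concavity of the second-order ratios of the transposed Boros-Moll sequences

`d l m` is the Boros-Moll number `d_ℓ(m)` and `x l m = d_ℓ(m-1) d_ℓ(m+1) / d_ℓ(m)^2`.
For every `ℓ ≥ 1` the sequence `x_ℓ(m)`, `m ≥ ℓ + 1`, is log-concave.
-/

set_option autoImplicit false

namespace Pool.Agent.Results.MP_3b55a2_co.LogConcave

open Finset Pool.Agent.R107

/-- The Boros-Moll number
`d_ℓ(m) = 2^(-2m) ∑_{k=ℓ}^m 2^k C(2m-2k, m-k) C(m+k, m) C(k, ℓ)`. -/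
noncomputable def d (l m : ℕ) : ℝ :=
  (∑ k ∈ Icc l m, (2 : ℝ) ^ k * ((2 * m - 2 * k).choose (m - k)) * ((m + k).choose m) *
    (k.choose l)) / 2 ^ (2 * m)

/-- The second-order ratio `x_ℓ(m) = d_ℓ(m-1) d_ℓ(m+1) / d_ℓ(m)^2`. -/
noncomputable def x (l m : ℕ) : ℝ := d l (m - 1) * d l (m + 1) / d l m ^ 2

theorem d_eq (l m : ℕ) : d l m = BM.dd l m := by
  unfold d BM.dd BM.S
  have h4 : (2 : ℝ) ^ (2 * m) = 4 ^ m := by rw [pow_mul]; norm_num
  rw [h4]
  congr 1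
  rw [← sum_subset (s₁ := Icc l m) (s₂ := range (m + 1))]
  · apply sum_congr rfl
    intro k _
    unfold BM.t
    rw [Nat.centralBinom, Nat.mul_sub]
  · intro k hk
    simp only [mem_Icc, mem_range] at hk ⊢
    omega
  · intro k hk hk'
    simp only [mem_Icc, mem_range, not_and, not_le] at hk hk'
    unfold BM.t
    have : k < l := by
      by_contra hc
      have := hk' (not_lt.mp hc)
      omega
    rw [Nat.choose_eq_zero_of_lt this]
    simp

/-- For all `ℓ ≥ 1` and `m ≥ ℓ + 2`: `x_ℓ(m-1) x_ℓ(m+1) ≤ x_ℓ(m)^2`. -/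
theorem result : ∀ l m : ℕ, 1 ≤ l → l + 2 ≤ m → x l (m - 1) * x l (m + 1) ≤ x l m ^ 2 := by
  intro l m hl hm
  obtain ⟨n, rfl⟩ : ∃ n, m = n + 2 := ⟨m - 2, by omega⟩
  have hn : l ≤ n := by omega
  have h := BM.ineq_dd l n hl hn
  have p0 := BM.dd_pos l n hn
  have p1 := BM.dd_pos l (n + 1) (by omega)
  have p2 := BM.dd_pos l (n + 2) (by omega)
  have p3 := BM.dd_pos l (n + 3) (by omega)
  have p4 := BM.dd_pos l (n + 4) (by omega)
  unfold x
  simp only [d_eq]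
  have i1 : n + 2 - 1 = n + 1 := by omega
  have i2 : n + 1 - 1 = n := by omega
  have i3 : n + 1 + 1 = n + 2 := by omega
  have i4 : n + 2 + 1 = n + 3 := by omega
  have i5 : n + 3 - 1 = n + 2 := by omega
  have i6 : n + 3 + 1 = n + 4 := by omega
  rw [i1, i2, i3, i4, i5, i6]
  rw [div_mul_div_comm, div_pow, div_le_div_iff₀ (by positivity) (by positivity)]
  have e1 : BM.dd l n * BM.dd l (n + 2) * (BM.dd l (n + 2) * BM.dd l (n + 4)) *
      (BM.dd l (n + 2) ^ 2) ^ 2 =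
      BM.dd l n * BM.dd l (n + 2) ^ 6 * BM.dd l (n + 4) := by ring
  have e2 : (BM.dd l (n + 1) * BM.dd l (n + 3)) ^ 2 *
      (BM.dd l (n + 1) ^ 2 * BM.dd l (n + 3) ^ 2) =
      BM.dd l (n + 1) ^ 4 * BM.dd l (n + 3) ^ 4 := by ring
  rw [e1, e2]
  exact h

end Pool.Agent.Results.MP_3b55a2_co.LogConcave
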